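import Pool.Agent.R597.LA.Main

/-!
# `l`-adic regulators: smooth projective varieties and smooth affine cubic hypersurfaces

`L.Q X i j`: the statement of Q1 for `X` in the bidegree `(i, j)`. `C` is a class of smooth separated
`K`-schemes of finite type of pure dimension, for example the smooth projective ones.
-/

set_option autoImplicit false

open CategoryTheory CategoryTheory.Limits AlgebraicGeometry MvPolynomial
open Pool.Agent.R904.CU Pool.Agent.R597.RD Pool.Agent.R597.LA

namespace Pool.Agent.Results.MP_76188c_nt.AffineCubics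

theorem result (K : Type) [Field K] (F : Type) [Field F] (L : Ladic K F) (hL : IsLadic L) :
    -- Q1 for `V(g)` in `(i, j)` is Q1 for the hypersurface `∑ yₖ gₖ = 1` in `(i + 2c - 1, j + c)`
    (∀ (σ κ : Type) [Fintype σ] [Fintype κ] (g : κ → MvPolynomial σ K) (c d : ℕ),
      Fintype.card σ = d + c → IsSm d (vScheme g) → ∀ i j : ℤ, 2 ≤ i + 2 * c - 1 →
      (L.Q (vScheme g) i j ↔ L.Q (Over.mk (hyp (bigPoly g))) (i + 2 * c - 1) (j + c))) ∧
    (∀ (C : Sch K → Prop), (∀ X, C X → ∃ d, IsSm d X) → Jouanolou K →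
      ∀ D : Set ℤ, (∀ B : ℤ, ∃ q ∈ D, B ≤ q) →
      -- Q1 for the class `C` on one diagonal
      (∀ m : ℤ, L.Q1For C m ↔ L.CubicQ C D (m + 1)) ∧
      -- Q1 for the class `C`
      ((∀ X, C X → ∀ i j : ℤ, L.Q X i j) ↔ ∀ m : ℤ, L.CubicQ C D m)) := by
  refine ⟨fun σ κ _ _ g c d hcard hZ i j h2 => (q_cubic hL g hcard hZ rfl rfl h2).symm,
    fun C hC hJ D hD => ⟨fun m => q1_iff_cubic hL hJ hC hD m, ?_⟩⟩
  constructor
  · intro h m
    have h1 := (q1_iff_cubic hL hJ hC hD (m - 1)).1 fun X hX i j _ => h X hX i j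
    have e : m - 1 + 1 = m := by ring
    rwa [e] at h1
  · intro h X hX i j
    exact (q1_iff_cubic hL hJ hC hD (2 * j - i)).2 (h _) X hX i j rfl

end Pool.Agent.Results.MP_76188c_nt.AffineCubics
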