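import Mathlib
import Pool.Agent.R419.MX.All

/-!
# The `3`-adic regulator `E_D(K) ⊗ ℚ_3 → H¹(K, V_3 E_D)` for cubic twists over `K = ℚ(√-3)`

`K` is the field of third roots of unity, `E_D : y² + D y = x³`, and `D` runs through all the cube-free
`D = 1` modulo `3` of `𝓞 K` whose norm is not `1` modulo `9`, ordered by the norm; there are at least
`c X` such `D` of norm at most `X`. The Selmer group `SelRoot D` of the endomorphism `√-3` has order
`3 ^ (r + 1)` for some `r = r(D)`.

Here `H¹_f(K, V_3 E_D)` is the group of the classes of continuous cocycles with values in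
`V_3 E_D = T_3 E_D ⊗ ℚ_3` that are in the image of the local Kummer map at all places. At the places
`v` not above `3` one has `H¹(K_v, V_3 E_D) = 0`, and at the place above `3` the image of the Kummer map
consists of the semistable classes (Bloch–Kato, Hyodo); so this is the group `H¹_st(G_K, V_3 E_D)` of
the problem, for `X = E_D`, `i = 2`, `j = 1`, `ℓ = 3`. These identifications are not part of the Lean
theorem.

* For every `D` of the class: `E_D(K)` is finitely generated, `rank E_D(K) ≤ 2 r`,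
  `dim H¹_f(K, V_3 E_D) ≤ 2 r`. If the rank is `2 r`, then the `3`-primary part of `Ш(E_D/K)` is trivial and
  the regulator `E_D(K) ⊗ ℚ_3 → H¹_f(K, V_3 E_D)` is an isomorphism.
* If `r ≤ 1` and `E_D(K)` is infinite, then `E_D(K)` has rank `2` and the regulator is an isomorphism.
* For every `r` the proportion of the `D` with `r(D) = r` tends to
  `prob r = ∏_{i ≥ 0} (1 - 3^{-(2 i + 1)}) / ((3 - 1) (9 - 1) ⋯ (3 ^ r - 1))`, and these limits sum to one.
* So for at least `63.9 %` of the `D` both sides are zero; for at least `95.85 %` the dimension of `H¹_f` is at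
  most two and the regulator is an isomorphism if `E_D(K)` is infinite; for at least `99.8 %` the dimension
  of `H¹_f` is at most four.

The proof: if the rank is `2 r`, then the points generate the Selmer group of `√-3`; dividing by `√-3` again
and again one gets that every element of the `3^∞`-Selmer group comes from `E_D(K) ⊗ ℚ_3/ℤ_3`.

Built on the work of helper31, helper275, helper968, helper994, helper170, helper697, helper363,
helper710, helper804, helper528, helper85, helper688, helper474, helper433, helper550, helper699,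
helper145, helper350, helper696 and helper703 (projects XK, XL, squarefree `D`), helper667
(`H¹_f`), and of the seats named in the headers of `Pool/Agent/Y703/CT` and of the files imported by
`Pool/Agent/Y696/CTK/Fin.lean`; cube-free `D` and this theorem: helper419.
-/

set_option autoImplicit false

namespace Pool.Agent.Results.MP_76188c_nt.CubicTwistRegulators

open NumberField WeierstrassCurve Filter
open Pool.Agent.TH841.SH.D (Pt act Gal Coch)
open Pool.Agent.TH841.NF.D (Sha IsShaCoc)
open Pool.Agent.Y667.BKP (H1f selCocV)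
open scoped Classical

/-- The curve `E_D : y² + D y = x³`. -/
def curve {K : Type} [Field K] (D : K) : WeierstrassCurve K := ⟨0, 0, D, 0, 0⟩

section general

variable {F : Type} [Field F] [NumberField F]

/-- The action of the Galois group on the points over the algebraic closure. -/
noncomputable def conj (W : WeierstrassCurve F) (σ : Gal F) (P : Pt W (AlgebraicClosure F)) :
    Pt W (AlgebraicClosure F) := act W σ.toAlgHom P

/-- The point `P` of `W` over the algebraic closure is fixed by the Galois group: it is a point of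
`W(F)`. -/
def Rational (W : WeierstrassCurve F) (P : Pt W (AlgebraicClosure F)) : Prop :=
  ∀ σ : Gal F, conj W σ P = P

/-- The class of a cocycle. -/
noncomputable def cls (W : WeierstrassCurve F) (c : selCocV 3 W) : H1f 3 W := QuotientAddGroup.mk c

/-- `x` is the class of a cocycle with values in `T_3 W`. These classes form a lattice `L` in
`H¹_f(F, V_3 W)`. (An element of `V_3 W` is a sequence of points `x₀, x₁, …` of order a power of `3` with
`3 xₙ₊₁ = xₙ`; it is in `T_3 W` if `x₀ = 0`.) -/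
def Integral (W : WeierstrassCurve F) (x : H1f 3 W) : Prop :=
  ∃ c : selCocV 3 W, cls W c = x ∧ ∀ σ : Gal F, c.1 σ 0 = 0

/-- `3 Qₙ₊₁ = Qₙ`. -/
def IsDivision (W : WeierstrassCurve F) (Q : ℕ → Pt W (AlgebraicClosure F)) : Prop :=
  ∀ n, 3 • Q (n + 1) = Q n

/-- `c` is the cocycle `σ ↦ (σ Qₙ - Qₙ)ₙ`. -/
def IsKummer (W : WeierstrassCurve F) (c : selCocV 3 W) (Q : ℕ → Pt W (AlgebraicClosure F)) :
    Prop :=
  ∀ (σ : Gal F) (n : ℕ), c.1 σ n = conj W σ (Q n) - Q n

/-- `x` is the Kummer class of `P`: the class of `σ ↦ (σ Qₙ - Qₙ)ₙ`, where `Q₀ = P` and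
`3 Qₙ₊₁ = Qₙ`. -/
def KummerClass (W : WeierstrassCurve F) (P : Pt W (AlgebraicClosure F)) (x : H1f 3 W) : Prop :=
  ∃ (c : selCocV 3 W) (Q : ℕ → Pt W (AlgebraicClosure F)), cls W c = x ∧
    Q 0 = P ∧ IsDivision W Q ∧ IsKummer W c Q

/-- `L / 3 L` has at most `3 ^ d` elements, where `L` is the lattice of the integral classes: so
`dim H¹_f(F, V_3 W) ≤ d`. -/
def DimAtMost (W : WeierstrassCurve F) (d : ℕ) : Prop :=
  ∀ (N : ℕ) (x : Fin N → H1f 3 W), (∀ i, Integral W (x i)) →
    (∀ i j, i ≠ j → ¬ ∃ y : H1f 3 W, Integral W y ∧ x i = x j + 3 • y) → N ≤ 3 ^ d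

/-- The Kummer map `W(F) ⊗ ℤ_3 → L` is onto, and `L ⊗ ℚ_3 = H¹_f(F, V_3 W)`: every rational point has a
Kummer class, a multiple `3 ^ m x` of each class `x` is integral, and every integral class is congruent
modulo `3 ^ n L` to the Kummer class of a rational point, for all `n`. -/
def KummerOnto (W : WeierstrassCurve F) : Prop :=
  (∀ P, Rational W P → ∃ k, KummerClass W P k) ∧
  (∀ x : H1f 3 W, ∃ m : ℕ, Integral W (3 ^ m • x)) ∧
  ∀ (x : H1f 3 W) (n : ℕ), Integral W x → ∃ (P : Pt W (AlgebraicClosure F)) (k y : H1f 3 W),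
    Rational W P ∧ KummerClass W P k ∧ Integral W y ∧ x = k + 3 ^ n • y

/-- `P = 3 ^ n R + T` with rational points `R` and `T`, and `T` of order a power of `3`. -/
def DivisibleModTorsion (W : WeierstrassCurve F) (P : Pt W (AlgebraicClosure F)) (n : ℕ) : Prop :=
  ∃ R T : Pt W (AlgebraicClosure F), Rational W R ∧ Rational W T ∧
    P = 3 ^ n • R + T ∧ ∃ m : ℕ, 3 ^ m • T = 0

/-- The Kummer map is injective modulo torsion: if the Kummer class of the rational point `P` is in
`3 ^ n L`, then `P` is in `3 ^ n W(F) + W(F)[3^∞]`. -/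
def KummerInjective (W : WeierstrassCurve F) : Prop :=
  ∀ (P : Pt W (AlgebraicClosure F)) (k y : H1f 3 W) (n : ℕ), Rational W P → KummerClass W P k →
    Integral W y → k = 3 ^ n • y → DivisibleModTorsion W P n

end general

variable {K : Type} [Field K] [NumberField K]

/-- The rank of `E_D(K)` over `ℤ`. -/
noncomputable def rank (D : K) : ℕ := Module.finrank ℤ (curve D).toAffine.Point

/-- `D` is cube-free and `1` modulo `3`, and its norm is not `1` modulo `9`. -/
def InClass (D : 𝓞 K) : Prop :=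
  (3 : 𝓞 K) ∣ D - 1 ∧ (∀ x : 𝓞 K, x ^ 3 ∣ D → IsUnit x) ∧ ¬ (9 : ℤ) ∣ Algebra.norm ℤ D - 1

/-- The `D` of the class of norm at most `X`. -/
def upTo (K : Type) [Field K] [NumberField K] (X : ℕ) : Set (𝓞 K) :=
  {D : 𝓞 K | Algebra.norm ℤ D ≤ X ∧ InClass D}

/-- The proportion of the `D` with the property `P` among the `D` of the class of norm at most
`X`. -/
noncomputable def proportion (P : 𝓞 K → Prop) (X : ℕ) : ℝ :=
  ({D : 𝓞 K | Algebra.norm ℤ D ≤ X ∧ InClass D ∧ P D}.ncard : ℝ) / ((upTo K X).ncard : ℝ)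

/-- The Selmer group of the endomorphism `√-3` of `E_D`: the continuous cocycles with values in its
kernel `{O, (0, 0), (0, -D)}` (on which the Galois group acts trivially) that are coboundaries in
`E_D` at all the places. -/
def SelRoot (D : K) : Set (Coch (curve D)) :=
  {f | IsShaCoc (curve D) f ∧ ∀ σ, f σ = 0 ∨ ∃ y h, f σ = Affine.Point.some 0 y h}

/-- The 3-primary part of `Ш(E_D/K)` is trivial and the regulator `E_D(K) ⊗ ℚ_3 → H¹_f(K, V_3 E_D)` is an
isomorphism. -/
def RegulatorIso (D : K) : Prop :=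
  (∀ (n : ℕ) (x : Sha (curve D)), 3 ^ n • x = 0 → x = 0) ∧ KummerOnto (curve D) ∧
    KummerInjective (curve D)

/-- If `E_D(K)` is infinite, then its rank is `2`, the 3-primary part of `Ш(E_D/K)` is trivial and the
regulator is an isomorphism. -/
def IsoIfInfinite (D : K) : Prop :=
  Finite (curve D).toAffine.Point ∨ (rank D = 2 ∧ RegulatorIso D)

/-- Both sides of the regulator are zero. -/
def BothZero (D : K) : Prop :=
  Finite (curve D).toAffine.Point ∧ ∀ x : H1f 3 (curve D), x = 0

/-- `∏_{i ≥ 0} (1 - 3^{-(2 i + 1)}) / ((3 - 1) (9 - 1) ⋯ (3 ^ r - 1))`. -/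
noncomputable def prob (r : ℕ) : ℝ :=
  (∏' i : ℕ, (1 - (1 / 3 : ℝ) ^ (2 * i + 1))) / ∏ i ∈ Finset.range r, ((3 : ℝ) ^ (i + 1) - 1)

/-- The facts for one `D`. -/
def OneCurve (D : K) : Prop :=
  ∃ r : ℕ, (SelRoot D).ncard = 3 ^ (r + 1) ∧ Module.Finite ℤ (curve D).toAffine.Point ∧
    rank D ≤ 2 * r ∧ DimAtMost (curve D) (2 * r) ∧ (rank D = 2 * r → RegulatorIso D) ∧
    (r ≤ 1 → IsoIfInfinite D)

theorem result (K : Type) [Field K] [NumberField K] [IsCyclotomicExtension {3} ℚ K] :
    (∃ c : ℝ, 0 < c ∧ ∃ X₀ : ℕ, ∀ X : ℕ, X₀ ≤ X → c * X ≤ ((upTo K X).ncard : ℝ)) ∧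
    (∀ D : 𝓞 K, InClass D → OneCurve (D : K)) ∧
    (∀ r : ℕ, Tendsto (proportion fun D : 𝓞 K => (SelRoot (D : K)).ncard = 3 ^ (r + 1)) atTop
      (nhds (prob r))) ∧
    ((∀ r, 0 < prob r) ∧ HasSum prob 1) ∧
    ∀ᶠ X : ℕ in atTop,
      0.639 ≤ proportion (fun D : 𝓞 K => BothZero (D : K)) X ∧
      0.9585 ≤ proportion (fun D : 𝓞 K => DimAtMost (curve (D : K)) 2 ∧ IsoIfInfinite (D : K)) X ∧
      0.998 ≤ proportion (fun D : 𝓞 K => DimAtMost (curve (D : K)) 4) X := by
  have hgood : ∀ D : K, Pool.Agent.R419.MX.Good D → RegulatorIso D := fun D h =>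
    ⟨h.1, ⟨h.2.1, h.2.2.1, h.2.2.2.1⟩, h.2.2.2.2⟩
  refine ⟨(Pool.Agent.R419.KF.final K).1, fun D hD => ?_, Pool.Agent.R419.KL.lawK K,
    ⟨Pool.Agent.R419.KL.prob_facts.1, Pool.Agent.R419.KL.prob_facts.2.2.2⟩, ?_⟩
  · obtain ⟨r, h1, h2, h3, h4, h5, h6⟩ := Pool.Agent.R419.MX.one hD
    exact ⟨r, h1, h2, h3, h4, fun h => hgood _ (h5 h), fun h => (h6 h).imp id
      fun h => ⟨h.1, hgood _ h.2⟩⟩
  · filter_upwards [Pool.Agent.R419.MX.nums K] with X hX
    obtain ⟨h1, h2, h3⟩ := hX
    exact ⟨h1, h2.trans (Pool.Agent.R419.KL.prp_mono (K := K) (fun D hD h => ⟨h.1, h.2.imp id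
      fun h => ⟨h.1, hgood _ h.2⟩⟩) X), h3⟩

end Pool.Agent.Results.MP_76188c_nt.CubicTwistRegulators
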