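import Mathlib
import Pool.Agent.R384.Y.Two
import Pool.Agent.R384.Inf

/-!
# Semistable classes for the powers of CM curves over `ℚ(√-7)`: all degrees and all twists

`K = ℚ(√-7)` with ring of integers `ℤ[ω]`, `ω² = ω - 2`; `(2) = (ω) (1 - ω)`. Every elliptic curve
over `K` with complex multiplication by `ℤ[ω]` is one of the
`E_D : y² = x³ + 3 (1 - ω) D x² + ω⁴ D² x`. The group `Gal(ℚ̄/K)` acts on the `2`-adic Tate module
of `E_D` by two characters, `κ` on the `ω`-primary part and `κ'` on the `(1 - ω)`-primary part, and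
for all `N`, `m`, `j` the representation `H^m(E_D^N, ℚ_2(j))` is a direct sum of copies of the
characters `κ ^ a κ' ^ b`, `a = j - s`, `b = j - t`, `s + t = m`.

Theorem: if `D = ± q_1 ... q_n` with distinct primes `q_i = 1` modulo `4`, `q_1 ... q_n = 5`
modulo `8`, and if the graph with vertices `1, ..., n` and edges `{i, k}` for the pairs such that
`q_i` is not a square modulo `q_k` has an odd number of spanning trees, then for **all** integers
`a`, `b` which are not both positive, all the classes of `H¹(K, ℚ_2(κ ^ a κ' ^ b))` which are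
unramified outside `2` and semistable at `2` are zero. For all `n > 0` there are infinitely many
such `D`. So the semistable classes of `H¹(K, H^m(E_D^N, ℚ_2(j)))` are zero for all `N` and all
`m`, `j` with `2 j ≤ m + 1`.
-/

set_option autoImplicit false

namespace Pool.Agent.Results.MP_76188c_nt.PowersOfCMCurves

open WeierstrassCurve
open scoped Classical

/-! ### The curves -/

/-- An algebraic closure of `ℚ`. -/
abbrev QBar : Type := AlgebraicClosure ℚ

/-- The ring of integers `ℤ[ω]`, `ω² = ω - 2`, of `ℚ(√-7)`. -/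
abbrev OK : Type := QuadraticAlgebra ℤ (-2) 1

/-- The field `K = ℚ(w)`. It is `ℚ(√-7)` if `w² = w - 2`. -/
noncomputable abbrev K (w : QBar) : IntermediateField ℚ QBar := IntermediateField.adjoin ℚ {w}

/-- `w` as an element of `K`. -/
noncomputable def gen (w : QBar) : K w := ⟨w, IntermediateField.mem_adjoin_simple_self ℚ w⟩

/-- The element `a + b ω` of `ℤ[ω]` as an element of the field `L`, `w` being the image of `ω`. -/
def emb {L : Type} [Ring L] (w : L) (z : OK) : L := z.re + z.im * w

/-- The curve `y² = x³ + 3 (1 - w) d x² + w⁴ d² x`. -/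
def curve {F : Type} [Field F] (w d : F) : WeierstrassCurve F :=
  ⟨0, 3 * (1 - w) * d, 0, w ^ 4 * d ^ 2, 0⟩

/-- The curve `E_D : y² = x³ + 3 (1 - ω) D x² + ω⁴ D² x` over `K`. -/
noncomputable def ED (w : QBar) (D : OK) : WeierstrassCurve (K w) := curve (gen w) (emb (gen w) D)

/-- The absolute Galois group of `K`. -/
abbrev Gal (w : QBar) : Type := QBar ≃ₐ[K w] QBar

/-- The characters of the Galois group with values in the units of `ℤ_2`. -/
abbrev Chr (w : QBar) : Type := Gal w →* ℤ_[2]ˣ

/-- The values of the character `χ`, in `ℤ_2`. -/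
noncomputable def zv {w : QBar} (χ : Chr w) (σ : Gal w) : ℤ_[2] := ((χ σ : ℤ_[2]ˣ) : ℤ_[2])

/-- The values of the character `χ`, in `ℚ_2`. -/
noncomputable def qv {w : QBar} (χ : Chr w) (σ : Gal w) : ℚ_[2] := ((zv χ σ : ℤ_[2]) : ℚ_[2])

/-- The group `E_D(ℚ̄)`. -/
abbrev Pts (w : QBar) (D : OK) : Type := ((ED w D).toAffine.baseChange QBar).Point

/-- The action of the Galois group on `E_D(ℚ̄)`. -/
noncomputable def act {w : QBar} {D : OK} (σ : Gal w) : Pts w D →+ Pts w D :=
  Affine.Point.map (W' := (ED w D).toAffine) (S := K w) (F := QBar) (K := QBar) σ.toAlgHom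

/-- The sequences `x` and `y` are elements of the `2`-adic Tate module of the abelian group `A`, and
they are a basis of it. -/
structure IsBasis {A : Type} [AddCommGroup A] (x y : ℕ → A) : Prop where
  zero : x 0 = 0 ∧ y 0 = 0
  double : ∀ n, x (n + 1) + x (n + 1) = x n ∧ y (n + 1) + y (n + 1) = y n
  span : ∀ (n : ℕ) (P : A), (2 ^ n : ℤ) • P = 0 → ∃ a b : ℤ, P = a • x n + b • y n
  indep : ∀ (n : ℕ) (a b : ℤ), a • x n + b • y n = 0 → (2 ^ n : ℤ) ∣ a ∧ (2 ^ n : ℤ) ∣ b

/-- The endomorphism `f` of the abelian group `A` acts on the element `x` of its `2`-adic Tate module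
as the multiplication by the `2`-adic integer `z`. -/
def ActsBy {A : Type} [AddCommGroup A] (f : A →+ A) (x : ℕ → A) (z : ℤ_[2]) : Prop :=
  ∀ (n : ℕ) (k : ℤ), (2 : ℤ_[2]) ^ n ∣ z - k → f (x n) = k • x n

/-! ### The semistable classes -/

/-- The decomposition group of the place of `K` given by the embedding `ι` of `ℚ̄`. -/
def Dec {w : QBar} {p : ℕ} [Fact p.Prime] (ι : QBar →ₐ[ℚ] PadicAlgCl p) : Set (Gal w) :=
  {σ | ∃ τ : PadicAlgCl p ≃ₐ[ℚ_[p]] PadicAlgCl p, ∀ x, τ (ι x) = ι (σ x)}

/-- Its inertia group: the automorphisms which are trivial on the residue field. -/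
def Inr {w : QBar} {p : ℕ} [Fact p.Prime] (ι : QBar →ₐ[ℚ] PadicAlgCl p) : Set (Gal w) :=
  {σ | ∃ τ : PadicAlgCl p ≃ₐ[ℚ_[p]] PadicAlgCl p, (∀ x, τ (ι x) = ι (σ x)) ∧
    ∀ z : PadicAlgCl p, ‖z‖ ≤ 1 → ‖τ z - z‖ < 1}

/-- The continuous cocycles of the Galois group with values in `ℚ_2(χ)`. -/
structure IsCocycle {w : QBar} (χ : Chr w) (c : Gal w → ℚ_[2]) : Prop where
  cont : Continuous c
  mul : ∀ σ τ, c (σ * τ) = c σ + qv χ σ * c τ

/-- The restriction of the cocycle `c` to the subset `S` of the Galois group is a coboundary. -/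
def TrivialOn {w : QBar} (χ : Chr w) (S : Set (Gal w)) (c : Gal w → ℚ_[2]) : Prop :=
  ∃ y : ℚ_[2], ∀ σ ∈ S, c σ = (qv χ σ - 1) * y

/-- The character `κ ^ a κ' ^ b`. -/
noncomputable def chi {w : QBar} (κ κ' : Chr w) (a b : ℤ) : Chr w := κ ^ a * κ' ^ b

/-- The semistable classes of a character `κ ^ a κ' ^ b` at a place above `2` where its Hodge–Tate
weight `h` (that is `a` at `ω` and `b` at `1 - ω`) is not positive are the trivial ones, or the
unramified ones if the character is trivial. If the weight is positive then all the classes are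
semistable. -/
def Semistable {w : QBar} (κ κ' : Chr w) (a b h : ℤ) (ι : QBar →ₐ[ℚ] PadicAlgCl 2)
    (c : Gal w → ℚ_[2]) : Prop :=
  h ≤ 0 → TrivialOn (chi κ κ' a b) (if a = 0 ∧ b = 0 then Inr ι else Dec ι) c

/-- The class of `c` in `H¹(K, ℚ_2(κ ^ a κ' ^ b))` is unramified outside `2` and semistable at the
two places above `2`. -/
structure IsSelmer {w : QBar} (κ κ' : Chr w) (a b : ℤ) (c : Gal w → ℚ_[2]) : Prop where
  odd : ∀ (p : ℕ) [Fact p.Prime] (ι : QBar →ₐ[ℚ] PadicAlgCl p), p ≠ 2 →
    TrivialOn (chi κ κ' a b) (Inr ι) c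
  one : ∀ ι : QBar →ₐ[ℚ] PadicAlgCl 2, ‖ι w‖ < 1 → Semistable κ κ' a b a ι c
  two : ∀ ι : QBar →ₐ[ℚ] PadicAlgCl 2, ‖ι (1 - w)‖ < 1 → Semistable κ κ' a b b ι c

/-- All these classes are zero. -/
def SelmerZero {w : QBar} (κ κ' : Chr w) (a b : ℤ) : Prop :=
  ∀ c : Gal w → ℚ_[2], IsCocycle (chi κ κ' a b) c → IsSelmer κ κ' a b c →
    TrivialOn (chi κ κ' a b) Set.univ c

/-- `κ` has order at most two on the inertia groups of the places that do not divide `v`. -/
def FiniteOff {w : QBar} (v : QBar) (κ : Chr w) : Prop :=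
  ∀ (p : ℕ) [Fact p.Prime] (ι : QBar →ₐ[ℚ] PadicAlgCl p), ‖ι v‖ = 1 → ∀ σ ∈ Inr ι, zv κ σ ^ 2 = 1

/-- The character `κ` is continuous and the Galois group acts by it on the element `x` of the Tate
module. -/
def Eigen {w : QBar} {D : OK} (κ : Chr w) (x : ℕ → Pts w D) : Prop :=
  Continuous (zv κ) ∧ ∀ σ : Gal w, ActsBy (act σ) x (zv κ σ)

/-- The Galois group acts on the `2`-adic Tate module of `E_D` through the sum of the continuous
characters `κ`, `κ'`; the first one has order at most two on the inertia groups of the places that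
do not divide `ω`, and the second one on those of the places that do not divide `1 - ω`. So `κ` has
the Hodge–Tate weights `1` at `ω` and `0` at `1 - ω`, and `κ'` has the weights `0` at `ω` and `1` at
`1 - ω`. -/
def TateModule {w : QBar} (D : OK) (κ κ' : Chr w) : Prop :=
  (∃ x y : ℕ → Pts w D, IsBasis x y ∧ Eigen κ x ∧ Eigen κ' y) ∧
    FiniteOff w κ ∧ FiniteOff (1 - w) κ'

/-! ### The family -/

/-- `x` is a square modulo `q`. -/
def IsSquareMod (q x : OK) : Prop := ∃ y : OK, q ∣ x - y ^ 2

/-- `D = ± q_1 ... q_n`, the `q_i` are distinct primes congruent to `1` modulo `4`, their product is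
congruent to `5` modulo `8`, and the only ways to write `{1, ..., n}` as the union of two disjoint
subsets `S` and `T` such that the product of the `q_k`, `k ∈ S`, is a square modulo the `q_i`,
`i ∈ T`, and conversely, are the trivial ones. By quadratic reciprocity, this means that the graph
with edges `{i, k}` for the pairs such that `q_i` is not a square modulo `q_k` has an odd number
of spanning trees. -/
structure Good {n : ℕ} (q : Fin n → OK) (D : OK) : Prop where
  prime : ∀ i, Prime (q i)
  one : ∀ i, (4 : OK) ∣ q i - 1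
  inj : Function.Injective q
  prod : D = ∏ i, q i ∨ D = -∏ i, q i
  five : (8 : OK) ∣ ∏ i, q i - 5
  indec : ∀ S : Finset (Fin n), (∀ i, i ∉ S → IsSquareMod (q i) (∏ k ∈ S, q k)) →
    (∀ i, i ∈ S → IsSquareMod (q i) (∏ k ∈ Sᶜ, q k)) → S = ∅ ∨ S = Finset.univ

/-! ### The proof -/

section proof

open Pool.Agent.Y676.IS (Cu some_congr)
open Pool.Agent.R384 (WD ca cb em)

variable {w : QBar} (hw : w ^ 2 = w - 2) {D : OK}

lemma gen_sq : gen w ^ 2 = gen w - 2 ↔ w ^ 2 = w - 2 := by
  rw [Subtype.ext_iff]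
  rfl

lemma emb_eq (z : OK) : ((emb (gen w) z : K w) : QBar) = em hw z := by
  unfold emb
  rw [Pool.Agent.R384.em_apply]
  push_cast
  rfl

lemma curve_eq : (ED w D).toAffine.baseChange QBar = Cu (ca w (em hw D)) (cb w (em hw D)) := by
  have h1 : algebraMap (K w) QBar (gen w) = w := rfl
  have h2 : algebraMap (K w) QBar (emb (gen w) D) = em hw D := emb_eq hw D
  unfold ED curve Cu ca cb WeierstrassCurve.Affine.baseChange WeierstrassCurve.toAffine
  ext
  · exact map_zero _
  · show algebraMap (K w) QBar (3 * (1 - gen w) * emb (gen w) D) = _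
    rw [map_mul, map_mul, map_sub, map_one, map_ofNat, h1, h2]
  · exact map_zero _
  · show algebraMap (K w) QBar (gen w ^ 4 * emb (gen w) D ^ 2) = _
    rw [map_mul, map_pow, map_pow, h1, h2]
  · exact map_zero _

/-- the points of equal curves -/
noncomputable def tr {W W' : Affine QBar} (h : W = W') : W.Point ≃+ W'.Point := by
  subst h
  exact AddEquiv.refl _

lemma tr_some {W W' : Affine QBar} (h : W = W') {a b : QBar} (hab : W.Nonsingular a b) :
    tr h (.some a b hab) = .some a b (h ▸ hab) := by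
  subst h
  rfl

lemma tr_act (h : WD w (em hw D)) (fx : ∀ σ : Gal w, Pool.Agent.R384.Fx w (em hw D)
    (Pool.Agent.R384.rh σ)) (σ : Gal w) (P : Pts w D) :
    tr (curve_eq hw) (act σ P) = Pool.Agent.R384.act h fx σ (tr (curve_eq hw) P) := by
  rcases P with _ | ⟨a, b, hab⟩
  · show tr (curve_eq hw) (act σ 0) = Pool.Agent.R384.act h fx σ (tr (curve_eq hw) 0)
    simp only [map_zero]
  · rw [tr_some (curve_eq hw) hab]
    exact tr_some (curve_eq hw) (a := σ.toAlgHom a) (b := σ.toAlgHom b)
      ((Affine.baseChange_nonsingular (ED w D).toAffine σ.toAlgHom.injective ..).mpr hab)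

lemma elliptic (hD : D ≠ 0) (hw : w ^ 2 = w - 2) : (ED w D).IsElliptic := by
  have hg := gen_sq.2 hw
  have hg0 : gen w ≠ 0 := by
    intro h
    rw [h] at hg
    norm_num at hg
  have hg1 : 1 - gen w ≠ 0 := by
    intro h
    have h1 : gen w = 1 := (sub_eq_zero.1 h).symm
    rw [h1] at hg
    norm_num at hg
  have hd : (emb (gen w) D : K w) ≠ 0 := by
    intro h
    have h1 := emb_eq hw D
    rw [h] at h1
    exact hD (Pool.Agent.R384.em_inj hw h1.symm)
  rw [WeierstrassCurve.isElliptic_iff, isUnit_iff_ne_zero]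
  have e : (ED w D).Δ = 16 * (gen w ^ 4 * emb (gen w) D ^ 2) ^ 2 *
      ((1 - gen w) ^ 8 * emb (gen w) D ^ 2) := by
    simp only [ED, curve, WeierstrassCurve.Δ, WeierstrassCurve.b₂, WeierstrassCurve.b₄,
      WeierstrassCurve.b₆, WeierstrassCurve.b₈]
    generalize emb (gen w) D = d at *
    generalize gen w = g at *
    have h2 : (1 - g) ^ 2 = -1 - g := by linear_combination hg
    have h4 : (1 - g) ^ 4 = 3 * g - 1 := by
      have : (1 - g) ^ 4 = ((1 - g) ^ 2) ^ 2 := by ring
      rw [this, h2]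
      linear_combination hg
    have h8 : (1 - g) ^ 8 = 3 * g - 17 := by
      have : (1 - g) ^ 8 = ((1 - g) ^ 4) ^ 2 := by ring
      rw [this, h4]
      linear_combination 9 * hg
    have g4 : g ^ 4 = 2 - 3 * g := by linear_combination (g ^ 2 + g - 1) * hg
    rw [h8]
    have e1 : 9 * (1 - g) ^ 2 - 4 * g ^ 4 = 3 * g - 17 := by
      rw [h2, g4]; ring
    rw [← e1]
    ring
  rw [e]
  exact mul_ne_zero (mul_ne_zero (by norm_num) (pow_ne_zero _ (mul_ne_zero (pow_ne_zero _ hg0)
    (pow_ne_zero _ hd)))) (mul_ne_zero (pow_ne_zero _ hg1) (pow_ne_zero _ hd))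

end proof

/-- The curve `E_D` is elliptic, the Galois group acts on its `2`-adic Tate module by `κ`, `κ'`, and
for all integers `a`, `b` which are not both positive all the classes of
`H¹(K, ℚ_2(κ ^ a κ' ^ b))` which are unramified outside `2` and semistable at `2` are zero. -/
def AllZero (D : OK) : Prop := ∀ w : QBar, w ^ 2 = w - 2 →
  (ED w D).IsElliptic ∧ ∃ κ κ' : Chr w, TateModule D κ κ' ∧
    ∀ a b : ℤ, a ≤ 0 ∨ b ≤ 0 → SelmerZero κ κ' a b

/-- **The semistable classes of the powers of CM curves.** -/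
theorem result :
    (∀ (n : ℕ) (q : Fin n → OK) (D : OK), Good q D → AllZero D) ∧
    ∀ n : ℕ, 1 ≤ n → {D : OK | ∃ q : Fin n → OK, Good q D}.Infinite := by
  refine ⟨?_, ?_⟩
  · intro n q D hg w hw
    have hpr : ∀ i, Pool.Agent.R384.Pr (q i) := fun i => ⟨hg.prime i, hg.one i⟩
    have hprod0 : ∏ i, q i ≠ 0 := Finset.prod_ne_zero_iff.2 fun i _ => (hg.prime i).ne_zero
    have hD : D ≠ 0 := by
      rcases hg.prod with h | h
      · rwa [h]
      · rw [h]
        exact neg_ne_zero.2 hprod0
    refine ⟨elliptic hD hw, ?_⟩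
    have h : Pool.Agent.R384.WD w (Pool.Agent.R384.em hw D) := ⟨hw, Pool.Agent.R384.em_ne hw hD⟩
    obtain ⟨r, hr⟩ : ∃ r : QBar, r ^ 2 = Pool.Agent.R384.em hw D :=
      IsAlgClosed.exists_pow_nat_eq _ (by norm_num)
    obtain ⟨I, hI⟩ : ∃ I : QBar, I ^ 2 = -1 := IsAlgClosed.exists_pow_nat_eq _ (by norm_num)
    have fx : ∀ σ : Gal w, Pool.Agent.R384.Fx w (Pool.Agent.R384.em hw D)
        (Pool.Agent.R384.rh σ) := fun σ =>
      ⟨Pool.Agent.Y715.Gi.gk_fix σ, Pool.Agent.R384.gk_em hw σ D⟩
    obtain ⟨κ, κ', x, y, kd, hx, hy, ax, ay⟩ := Pool.Agent.R384.exists_kd hw hD h hr hI fx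
    have td := Pool.Agent.R384.td h
    set T := tr (curve_eq hw (D := D)) with hT
    have hor : ∀ {p : ℕ} [Fact p.Prime] (ι : QBar →ₐ[ℚ] PadicAlgCl p) (s : QBar) (z : OK),
        s ^ 2 = Pool.Agent.R384.em hw z → ∀ σ : Gal w, σ s = s ∨ σ s = -s := fun ι s z hs σ =>
      Pool.Agent.R384.rt_or hw hs σ
    have hIr : (I * r) ^ 2 = Pool.Agent.R384.em hw (-D) := by rw [mul_pow, hI, hr, map_neg]; ring
    refine ⟨κ, κ', ⟨⟨fun n => T.symm (y n), fun n => T.symm (x n), ⟨?_, ?_, ?_, ?_⟩,
      ⟨Units.continuous_val.comp kd.cont, fun σ => ?_⟩,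
      ⟨Units.continuous_val.comp kd.cont', fun σ => ?_⟩⟩, ?_, ?_⟩, ?_⟩
    · show T.symm (y 0) = 0 ∧ T.symm (x 0) = 0
      rw [hx.zero, hy.zero, map_zero]
      exact ⟨rfl, rfl⟩
    · intro n
      show T.symm (y (n + 1)) + T.symm (y (n + 1)) = T.symm (y n) ∧
        T.symm (x (n + 1)) + T.symm (x (n + 1)) = T.symm (x n)
      rw [← map_add, ← map_add, hx.dbl, hy.dbl]
      exact ⟨rfl, rfl⟩
    · intro n P hP
      have h1 : (2 ^ n : ℤ) • T P = 0 := by rw [← map_zsmul, hP, map_zero]
      obtain ⟨a, b, hab⟩ := Pool.Agent.R384.Tow.basis td hx hy h1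
      refine ⟨b, a, ?_⟩
      apply T.injective
      show T P = T (b • T.symm (y n) + a • T.symm (x n))
      rw [map_add, map_zsmul, map_zsmul, T.apply_symm_apply, T.apply_symm_apply, hab, add_comm]
    · intro n a b hab
      have h1 : T (a • T.symm (y n) + b • T.symm (x n)) = 0 := by
        show T ((fun n => a • T.symm (y n) + b • T.symm (x n)) n) = 0
        rw [show (fun n => a • T.symm (y n) + b • T.symm (x n)) n = 0 from hab, map_zero]
      rw [map_add, map_zsmul, map_zsmul, T.apply_symm_apply, T.apply_symm_apply, add_comm] at h1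
      exact (Pool.Agent.R384.Tow.uniq td hx hy h1).symm
    · intro n k hk
      show act σ (T.symm (y n)) = k • T.symm (y n)
      apply T.injective
      rw [hT, tr_act hw h fx σ, ← hT, T.apply_symm_apply, map_zsmul, T.apply_symm_apply]
      exact ay σ n k hk
    · intro n k hk
      show act σ (T.symm (x n)) = k • T.symm (x n)
      apply T.injective
      rw [hT, tr_act hw h fx σ, ← hT, T.apply_symm_apply, map_zsmul, T.apply_symm_apply]
      exact ax σ n k hk
    · rintro p _ ι hn σ ⟨τ, hτ, hin⟩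
      have h1 := kd.inert p ι τ σ hτ hin hn
      unfold zv
      rcases hor ι _ _ hIr σ with h2 | h2
      · rw [h1.1 h2, Units.val_one, one_pow]
      · rw [h1.2 h2, Units.val_neg, Units.val_one, neg_one_sq]
    · rintro p _ ι hn σ ⟨τ, hτ, hin⟩
      have h1 := kd.inert' p ι τ σ hτ hin hn
      unfold zv
      rcases hor ι _ _ hr σ with h2 | h2
      · rw [h1.1 h2, Units.val_one, one_pow]
      · rw [h1.2 h2, Units.val_neg, Units.val_one, neg_one_sq]
    · intro a b hab c hc hs
      have hom : Pool.Agent.R384.em hw Pool.Agent.R384.om = w := by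
        rw [Pool.Agent.R384.em_apply]
        simp [Pool.Agent.R384.om]
      have hom' : Pool.Agent.R384.em hw (1 - Pool.Agent.R384.om) = 1 - w := by
        rw [map_sub, map_one, hom]
      by_cases h0 : a = 0 ∧ b = 0
      · obtain ⟨rfl, rfl⟩ := h0
        have e : chi κ κ' 0 0 = 1 := by
          apply MonoidHom.ext
          intro σ
          show (κ σ) ^ (0 : ℤ) * (κ' σ) ^ (0 : ℤ) = 1
          rw [zpow_zero, zpow_zero, mul_one]
        have hs' := hs
        rw [e] at hc
        have hc' : Pool.Agent.R384.Coc 1 c := ⟨hc.cont, hc.mul⟩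
        have hall : ∀ (p : ℕ) [Fact p.Prime] (ι : QBar →ₐ[ℚ] PadicAlgCl p),
            Pool.Agent.R384.CobOn 1 (Pool.Agent.R384.II ι) c := by
          intro p _ ι
          by_cases hp : p = 2
          · subst hp
            have h2 : ‖ι w‖ < 1 ∨ ‖ι (1 - w)‖ < 1 := by
              by_contra hcon
              push Not at hcon
              have h3 : ι w * ι (1 - w) = 2 := by
                rw [← map_mul, show w * (1 - w) = 2 by linear_combination -hw, map_ofNat]
              have h4 := congrArg norm h3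
              rw [norm_mul, Pool.Agent.Y715.Gi.norm_two'] at h4
              nlinarith [hcon.1, hcon.2]
            rcases h2 with h2 | h2
            · have h3 := hs.one ι h2 le_rfl
              rw [e, if_pos ⟨rfl, rfl⟩] at h3
              exact h3
            · have h3 := hs.two ι h2 le_rfl
              rw [e, if_pos ⟨rfl, rfl⟩] at h3
              exact h3
          · have h3 := hs.odd p ι hp
            rw [e] at h3
            exact h3
        refine ⟨0, fun σ _ => ?_⟩
        rw [mul_zero]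
        exact Pool.Agent.R384.vanish_one hw hc' hall σ
      · have hc' : Pool.Agent.R384.Coc (κ ^ a * κ' ^ b) c := ⟨hc.cont, hc.mul⟩
        rcases hab with hab | hab
        · obtain ⟨y, hy⟩ := Pool.Agent.R384.vanishAB hw hpr hg.inj hg.five hg.indec hg.prod kd a b
            (Or.inl ⟨rfl, rfl⟩) hc' (fun p _ ι hp => hs.odd p ι hp) (fun ι hι => by
              rw [hom] at hι
              have h3 := hs.one ι hι hab
              rw [if_neg h0] at h3
              exact h3)
          exact ⟨y, fun σ _ => hy σ⟩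
        · obtain ⟨y, hy⟩ := Pool.Agent.R384.vanishAB hw hpr hg.inj hg.five hg.indec hg.prod kd a b
            (Or.inr ⟨rfl, rfl⟩) hc' (fun p _ ι hp => hs.odd p ι hp) (fun ι hι => by
              rw [hom'] at hι
              have h3 := hs.two ι hι hab
              rw [if_neg h0] at h3
              exact h3)
          exact ⟨y, fun σ _ => hy σ⟩
  · intro n hn
    obtain ⟨k, rfl⟩ : ∃ k, n = k + 1 := ⟨n - 1, by omega⟩
    refine (Pool.Agent.R384.inf k).mono ?_
    rintro D ⟨q, hq, hD⟩
    exact ⟨q, fun i => (hq.pr i).prime, fun i => (hq.pr i).one, hq.inj, Or.inl hD, hq.five, hq.ind⟩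

end Pool.Agent.Results.MP_76188c_nt.PowersOfCMCurves
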