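import Pool.Agent.R898.RGM

/-!
# Regulators onto semistable Galois cohomology: reduction to primitive classes in the middle degree

The setting: `𝒱` is a class of smooth projective varieties over a field `k` (a number field in the
problem), closed under products, `C` stands for the Chow groups with rational coefficients, `W` for
the `ℓ`-adic cohomology, `L` for the field of `ℓ`-adic numbers. Fix `r ≥ 0` and consider the regulators
`H_M^i(X, Q(j))_hom ⊗ Q_ℓ → H^1(G_k, H^(i-1)(X̄, Q_ℓ(j)))` with `2j - i = r`. `T : RegTheory W L r` has the
formal properties of the target `J X j = H^1_st(G_k, H^(2j-r-1)(X̄, Q_ℓ(j)))` and of the part `im X j` of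
the image of the regulator in it: functoriality for correspondences; a correspondence which acts as
zero on `H^(2j-r-1)(X̄)` acts as zero on `J X j`; the images are preserved.

`S` is a class of pairs `(X, D)` of a variety and a divisor class, and `(P a, h a)` is for each `a` a
variety of dimension `a` with a divisor class with `deg (h a)^a > 0`, such that `S` is closed under the
products with the `(P a, h a)` (`IsStable`). Example: all smooth projective varieties with the ample
divisor classes, and the projective spaces with the class of a hyperplane. `HardLef T S`: the maps
`D^a : J X j → J X (j + a)` are surjective if `(2j - r - 1) + a = dim X`; in the example this is a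
consequence of the hard Lefschetz theorem for `ℓ`-adic cohomology.

The theorem: let `I` be an arbitrary infinite set of natural numbers. The images of the regulators
contain the groups `H^1_st` for all pairs in `S` and all `(i, j)` with `2j - i = r` if and only if for
the pairs `(X, D)` in `S` and the `(i, j)` with `2j - i = r`, `i - 1 = dim X` and `j ∈ I` the image
contains all classes `c` in `H^1_st` with `D c = 0`, that is, the group `H^1_st` of the primitive part
of the cohomology in the middle degree.

The point is that no algebraic inverses of the Lefschetz operators (standard conjecture) are needed,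
and one cannot use hyperplane sections `Y` of `X` directly, because the push-forward from `Y` only
gives classes which are divisible by `D`. If `D^(a+1) c = 0`, `c ∈ J X j`, `2j + a = dim X + r + 1`, and
`ω = ∑ (-D)^l h^(a-l)` on `X × P a`, then `ω p^* c` is primitive in the middle degree, and
`p_*(ω p^* c)` is a nonzero multiple of `c`.
-/

open Pool.Agent.H914 Pool.Agent.R903 Pool.Agent.R898.HL Pool.Agent.R898.RG

universe u v w

/-- Reduction of the surjectivity to primitive classes in the middle degree. -/
theorem Pool.Agent.Results.MP_76188c_nt.PrimitiveMiddleDegree.result {k : Type u} [Field k]
    {𝒱 : VarClass k} (C : ChowTheory.{u, v} 𝒱) (W : WeilTheory.{u, v, w} C) (L : Type v) [Field L]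
    [CharZero L] (r : ℕ) (T : RegTheory W L r) (S : ∀ X : 𝒱.Obj, C.CH X → Prop) (P : ℕ → 𝒱.Obj)
    (h : ∀ a, C.CH (P a)) (hS : IsStable C S P h) (hH : HardLef T S) (I : Set ℕ)
    (hI : Unbounded I) : AllOnto T S ↔ PrimOnto T S I :=
  main hS hI hH
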